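import Pool.Agent.H466.HE.SB
import Pool.Agent.H466.LD.L18

/-!
# Project HE, ZF4: all zeros of the backward flow are at a bounded distance from the line
-/

set_option autoImplicit false

namespace Pool.Agent.H549.HE.ZF4

open Complex MeasureTheory Set Filter Topology
open scoped ComplexConjugate
open Pool.Agent.H466.HF Pool.Agent.H466.LD Pool.Agent.H466.HP Pool.Agent.H466.HN Pool.Agent.H466.HD
open Pool.Agent.H466.HE
open Pool.Agent.H862.VK (Yz)

lemma LL_fe (lam : ℝ) (z : ℂ) : LL gk lam (-conj z) = conj (LL gk lam z) := by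
  unfold LL
  rw [← integral_conj, ← integral_neg_eq_self
    (fun u : ℝ => conj (gk u * cexp ((lam : ℂ) * (u : ℂ) ^ 2 + z * u)))]
  refine integral_congr_ae (Eventually.of_forall fun u => ?_)
  simp only [gk]
  rw [map_mul, conj_ofReal, Pool.Agent.Helper242.KK.Ph_even, ← Complex.exp_conj]
  congr 2
  simp

lemma Yz_two (z : ℂ) : Yz z = 2 * LL gk 0 z := by
  rw [LL_gk_xi]
  unfold Yz xi
  ring

lemma P_ld {b B C2 : ℝ} (H : Gd (LL gk 0) gz Dz 12 b B C2 9) {w : ℂ} (hw : 3 / 2 ≤ w.re) :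
    P w = ld (LL gk 0) gz Dz w := by
  have h1 := (H.der hw).const_mul (2 : ℂ)
  have h2 : HasDerivAt Yz (2 * (LL gk 0 w * ld (LL gk 0) gz Dz w)) w := by
    have e : Yz = fun z => 2 * LL gk 0 z := funext Yz_two
    rw [e]
    exact h1
  unfold P logDeriv
  rw [Pi.div_apply, h2.deriv, Yz_two]
  have h3 := (H.Fne (z := w) (by linarith)).1
  field_simp

lemma Dz_bound {w : ℂ} (h0 : 0 ≤ w.re) (h10 : 10 ≤ ‖w‖) :
    ‖Dz w - ((Real.log ‖w‖ / 2 : ℝ) : ℂ)‖ ≤ 10 := by
  set s : ℂ := w / 2 + 1 / 4 + 1 with hs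
  have hsre : s.re = w.re / 2 + 5 / 4 := by
    rw [hs]
    simp
    ring
  have h1 := H353.E.dig_aux (s := s) (by rw [hsre]; linarith)
  have e2 : s + 2 = w / 2 + 13 / 4 := by
    rw [hs]
    ring
  have n1 : ‖w / 2‖ = ‖w‖ / 2 := by
    rw [norm_div, Complex.norm_ofNat]
  have n2 : ‖(13 / 4 : ℂ)‖ = 13 / 4 := by norm_num
  have hup : ‖s + 2‖ ≤ ‖w‖ := by
    rw [e2]
    refine (norm_add_le _ _).trans ?_
    rw [n1, n2]
    linarith
  have hlo : ‖w‖ / 8 ≤ ‖s + 2‖ := by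
    rw [e2]
    have h3 := norm_sub_norm_le (w / 2) (-(13 / 4 : ℂ))
    rw [norm_neg, n1, n2, sub_neg_eq_add] at h3
    linarith
  have hw0 : 0 < ‖w‖ := by linarith
  have l1 : Real.log ‖s + 2‖ ≤ Real.log ‖w‖ := Real.log_le_log (by linarith) hup
  have l2 : Real.log ‖w‖ - 3 ≤ Real.log ‖s + 2‖ := by
    have h4 := Real.log_le_log (by linarith) hlo
    rw [Real.log_div hw0.ne' (by norm_num)] at h4
    have h5 : Real.log 8 ≤ 3 := by
      have h6 : (8 : ℝ) = 2 ^ 3 := by norm_num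
      have h7 := Real.log_two_lt_d9
      rw [h6, Real.log_pow]
      push_cast
      linarith
    linarith
  have hlog : ‖Complex.log (s + 2) - (Real.log ‖w‖ : ℂ)‖ ≤ 3 + 4 := by
    refine (Complex.norm_le_abs_re_add_abs_im _).trans ?_
    rw [sub_re, sub_im, Complex.log_re, Complex.log_im, ofReal_re, ofReal_im, sub_zero]
    have h6 : |Real.log ‖s + 2‖ - Real.log ‖w‖| ≤ 3 := by
      rw [abs_le]
      constructor <;> linarith
    have h7 : |(s + 2).arg| ≤ 4 := (Complex.abs_arg_le_pi _).trans Real.pi_lt_four.le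
    linarith
  have hpi : ‖((Real.log Real.pi : ℝ) : ℂ)‖ ≤ 3 := by
    have hpi1 := Real.pi_gt_three
    rw [Complex.norm_real, Real.norm_eq_abs, abs_of_nonneg (Real.log_nonneg (by linarith))]
    have h8 := Real.log_le_sub_one_of_pos Real.pi_pos
    have := Real.pi_lt_four
    linarith
  have hden : ‖1 / (w + 3 / 2)‖ ≤ 1 := by
    have := den_norm h0
    rw [norm_div, norm_one, div_le_one (by linarith)]
    linarith
  have e3 : Dz w - ((Real.log ‖w‖ / 2 : ℝ) : ℂ) = 1 / (w + 3 / 2) +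
      1 / 2 * ((logDeriv Gamma s - Complex.log (s + 2)) +
        (Complex.log (s + 2) - (Real.log ‖w‖ : ℂ)) - ((Real.log Real.pi : ℝ) : ℂ)) := by
    unfold Dz DE
    rw [← hs]
    push_cast
    ring
  rw [e3]
  have e4 : ‖(1 / 2 : ℂ)‖ = 1 / 2 := by norm_num
  have b1 := norm_add_le (1 / (w + 3 / 2)) (1 / 2 * ((logDeriv Gamma s - Complex.log (s + 2)) +
        (Complex.log (s + 2) - (Real.log ‖w‖ : ℂ)) - ((Real.log Real.pi : ℝ) : ℂ)))
  rw [norm_mul, e4] at b1
  have b2 := norm_sub_le ((logDeriv Gamma s - Complex.log (s + 2)) +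
        (Complex.log (s + 2) - (Real.log ‖w‖ : ℂ))) ((Real.log Real.pi : ℝ) : ℂ)
  have b3 := norm_add_le (logDeriv Gamma s - Complex.log (s + 2))
        (Complex.log (s + 2) - (Real.log ‖w‖ : ℂ))
  linarith

/-- vertical growth -/
lemma vert {b B C2 : ℝ} (H : Gd (LL gk 0) gz Dz 12 b B C2 9) {w : ℂ} (hw : 1 ≤ w.re) {v : ℝ}
    (hv : 1 / 4 ≤ |v|) : ‖LL gk 0 (w + v * I)‖ ≤ ‖LL gk 0 w‖ * Real.exp ((8 * b + 12) * |v|) := by
  have hb := H.b0
  have hwre : (w + v * I).re = w.re := by simp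
  have h1 := H.hi (w + v * I) (by rw [hwre]; exact hw)
  have h2 := H.lo w hw
  have h3 := gam_vert H.G (v := w.re) (by linarith) (w.im + v) w.im
  have e1 : (w.re : ℂ) + ((w.im + v : ℝ) : ℂ) * I = w + v * I := by
    have := re_add_im w
    push_cast
    linear_combination this
  rw [e1, re_add_im, add_sub_cancel_left] at h3
  have h4 : ‖gz w‖ ≤ Real.exp b * ‖LL gk 0 w‖ := by
    rw [Real.exp_neg, inv_mul_le_iff₀ (Real.exp_pos b)] at h2
    exact h2
  calc ‖LL gk 0 (w + v * I)‖ ≤ Real.exp b * ‖gz (w + v * I)‖ := h1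
    _ ≤ Real.exp b * (‖gz w‖ * Real.exp (12 * |v|)) :=
        mul_le_mul_of_nonneg_left h3 (Real.exp_pos _).le
    _ ≤ Real.exp b * ((Real.exp b * ‖LL gk 0 w‖) * Real.exp (12 * |v|)) := by
        apply mul_le_mul_of_nonneg_left _ (Real.exp_pos _).le
        exact mul_le_mul_of_nonneg_right h4 (Real.exp_pos _).le
    _ = ‖LL gk 0 w‖ * Real.exp (b + b + 12 * |v|) := by
        rw [Real.exp_add, Real.exp_add]
        ring
    _ ≤ ‖LL gk 0 w‖ * Real.exp ((8 * b + 12) * |v|) := by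
        apply mul_le_mul_of_nonneg_left _ (norm_nonneg _)
        apply Real.exp_le_exp.mpr
        nlinarith

lemma right_side (h : S_ZFG) : ∃ δ T0 : ℝ, 0 < δ ∧ 10 ≤ T0 ∧ ∀ T μ : ℝ, T0 ≤ T → 0 < μ →
    μ * Real.log T ≤ δ → ∀ z : ℂ, T ≤ z.im → z.im ≤ 2 * T → 3 ≤ z.re → LL gk (-μ) z ≠ 0 := by
  obtain ⟨κ1, K, hκ1, hK, hmain⟩ := h
  obtain ⟨b, B, C2, H⟩ := gd_xi
  have hb := H.b0
  refine ⟨min (1 / 16) (min (1 / K) (min (1 / (8 * (11 + 32 * b)))
    (min (κ1 / (12 + 1024 * b)) (1 / (32 * (8 * b + 12)))))), 20, ?_, by norm_num, ?_⟩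
  · refine lt_min (by norm_num) (lt_min (by positivity) (lt_min (by positivity)
      (lt_min (by positivity) (by positivity))))
  intro T μ hT hμ hμT z hz1 hz2 hz3
  set δ : ℝ := min (1 / 16) (min (1 / K) (min (1 / (8 * (11 + 32 * b)))
    (min (κ1 / (12 + 1024 * b)) (1 / (32 * (8 * b + 12)))))) with hδ
  have d1 : δ ≤ 1 / 16 := min_le_left _ _
  have d2 : δ ≤ 1 / K := (min_le_right _ _).trans (min_le_left _ _)
  have d3 : δ ≤ 1 / (8 * (11 + 32 * b)) :=
    (min_le_right _ _).trans ((min_le_right _ _).trans (min_le_left _ _))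
  have d4 : δ ≤ κ1 / (12 + 1024 * b) :=
    (min_le_right _ _).trans ((min_le_right _ _).trans
      ((min_le_right _ _).trans (min_le_left _ _)))
  have d5 : δ ≤ 1 / (32 * (8 * b + 12)) :=
    (min_le_right _ _).trans ((min_le_right _ _).trans
      ((min_le_right _ _).trans (min_le_right _ _)))
  have hlogT : 1 ≤ Real.log T := by
    rw [Real.le_log_iff_exp_le (by linarith)]
    have := Real.exp_one_lt_d9
    linarith
  have hμδ : μ ≤ δ := by
    refine le_trans ?_ hμT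
    nlinarith
  have hδ0 : 0 < δ := hμ.trans_le hμδ
  -- the size of `z`
  set L : ℝ := Real.log ‖z‖ with hL
  have him := (le_abs_self z.im).trans (Complex.abs_im_le_norm z)
  have hre := (le_abs_self z.re).trans (Complex.abs_re_le_norm z)
  have hz20 : 20 ≤ ‖z‖ := by linarith
  have hL0 : 0 < L := Real.log_pos (by linarith)
  have hLup : L ≤ Real.log T + (z.re + 1) := by
    have h1 : ‖z‖ ≤ z.re + 2 * T := by
      have := Complex.norm_le_abs_re_add_abs_im z
      rw [abs_of_nonneg (by linarith), abs_of_nonneg (by linarith)] at this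
      linarith
    have h2 : ‖z‖ ≤ T * (z.re + 2) := by nlinarith
    have h3 : L ≤ Real.log (T * (z.re + 2)) := Real.log_le_log (by linarith) h2
    rw [Real.log_mul (by linarith) (by linarith)] at h3
    have h4 := Real.log_le_sub_one_of_pos (show 0 < z.re + 2 by linarith)
    linarith
  have hμL : μ * L ≤ δ * (z.re + 2) := by
    have h1 : μ * L ≤ μ * Real.log T + μ * (z.re + 1) := by
      have := mul_le_mul_of_nonneg_left hLup hμ.le
      linarith
    have h2 : μ * (z.re + 1) ≤ δ * (z.re + 1) := mul_le_mul_of_nonneg_right hμδ (by linarith)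
    linarith
  have hμL0 : 0 ≤ μ * L := by positivity
  have hpos : 5 / 2 ≤ z.re - μ * L := by nlinarith
  have hcen : (z - ((μ * L : ℝ) : ℂ)).re = z.re - μ * L := by
    rw [sub_re, ofReal_re]
  have hball : ∀ (w : ℂ) (r : ℝ), ‖w - (z - ((μ * L : ℝ) : ℂ))‖ ≤ r → 5 / 2 - r ≤ w.re := by
    intro w r hw
    have h1 := (abs_le.mp ((Complex.abs_re_le_norm _).trans hw)).1
    rw [sub_re, hcen] at h1
    linarith
  have hsize : ∀ w : ℂ, ‖w - (z - ((μ * L : ℝ) : ℂ))‖ ≤ 1 →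
      ‖z‖ / 2 ≤ ‖w‖ ∧ ‖w‖ ≤ 2 * ‖z‖ := by
    intro w hw
    have h1 : ‖w - z‖ ≤ 1 + δ * (z.re + 2) := by
      have e : w - z = (w - (z - ((μ * L : ℝ) : ℂ))) - ((μ * L : ℝ) : ℂ) := by ring
      rw [e]
      refine (norm_sub_le _ _).trans ?_
      rw [Complex.norm_real, Real.norm_eq_abs, abs_of_nonneg hμL0]
      linarith
    have h2 : δ * (z.re + 2) ≤ 1 / 16 * (‖z‖ + 2) := by
      apply mul_le_mul d1 (by linarith) (by linarith) (by norm_num)
    have h3 := norm_sub_norm_le w z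
    have h4 := norm_sub_norm_le z w
    rw [norm_sub_rev z w] at h4
    constructor <;> linarith
  have hPl : ∀ w : ℂ, ‖w - (z - ((μ * L : ℝ) : ℂ))‖ ≤ 1 →
      ‖P w - ((L / 2 : ℝ) : ℂ)‖ ≤ 11 + 32 * b := by
    intro w hw
    have h1 := hball w 1 hw
    obtain ⟨h2, h3⟩ := hsize w hw
    rw [P_ld H (by linarith)]
    have h4 := Dz_bound (w := w) (by linarith) (by linarith)
    have h5 := (H.lqb (z := w) (by linarith)).1
    have h6 : ‖((Real.log ‖w‖ / 2 : ℝ) : ℂ) - ((L / 2 : ℝ) : ℂ)‖ ≤ 1 := by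
      rw [← ofReal_sub, Complex.norm_real, Real.norm_eq_abs]
      have l1 := Real.log_le_log (by linarith) h3
      rw [Real.log_mul (by norm_num) (by linarith), ← hL] at l1
      have l2 := Real.log_le_log (by linarith) h2
      rw [Real.log_div (by linarith) (by norm_num), ← hL] at l2
      have l3 := Real.log_two_lt_d9
      rw [abs_le]
      constructor <;> linarith
    have e : ld (LL gk 0) gz Dz w - ((L / 2 : ℝ) : ℂ) =
        (Dz w - ((Real.log ‖w‖ / 2 : ℝ) : ℂ)) +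
        (((Real.log ‖w‖ / 2 : ℝ) : ℂ) - ((L / 2 : ℝ) : ℂ)) + lq (LL gk 0) gz w := by
      unfold ld
      ring
    rw [e]
    have b1 := norm_add_le ((Dz w - ((Real.log ‖w‖ / 2 : ℝ) : ℂ)) +
        (((Real.log ‖w‖ / 2 : ℝ) : ℂ) - ((L / 2 : ℝ) : ℂ))) (lq (LL gk 0) gz w)
    have b2 := norm_add_le (Dz w - ((Real.log ‖w‖ / 2 : ℝ) : ℂ))
        (((Real.log ‖w‖ / 2 : ℝ) : ℂ) - ((L / 2 : ℝ) : ℂ))
    linarith
  apply hmain μ L 1 z hμ hL0 one_pos
  · have h1 : μ ≤ 1 / K := hμδ.trans d2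
    rw [le_div_iff₀ hK] at h1
    linarith
  · intro w hw
    have h1 := hball w 1 hw
    refine ⟨(H.Fne (z := w) (by linarith)).1, ?_⟩
    have h2 := hPl w hw
    have h3 : μ ≤ 1 / (8 * (11 + 32 * b)) := hμδ.trans d3
    rw [le_div_iff₀ (by positivity)] at h3
    have h4 : 2 * μ * ‖P w - ((L / 2 : ℝ) : ℂ)‖ ≤ 2 * μ * (11 + 32 * b) :=
      mul_le_mul_of_nonneg_left h2 (by positivity)
    linarith
  · intro w w' hw hw'
    have h1 := hball w 1 hw
    have h2 := hball w' 1 hw'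
    rw [P_ld H (by linarith), P_ld H (by linarith)]
    have h3 := H.G.lip w w' (by linarith) (by linarith)
    have h4 := H.lqlip (z := w) (w := w') (by linarith) (by linarith)
    have h5 : μ ≤ κ1 / (12 + 1024 * b) := hμδ.trans d4
    rw [le_div_iff₀ (by positivity)] at h5
    have h6 : 12 + 1024 * b ≤ κ1 / μ := by
      rw [le_div_iff₀ hμ]
      linarith
    have e : ld (LL gk 0) gz Dz w - ld (LL gk 0) gz Dz w' =
        (Dz w - Dz w') + (lq (LL gk 0) gz w - lq (LL gk 0) gz w') := by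
      unfold ld
      ring
    rw [e]
    refine (norm_add_le _ _).trans ?_
    have h7 : (12 + 1024 * b) * ‖w - w'‖ ≤ κ1 / μ * ‖w - w'‖ :=
      mul_le_mul_of_nonneg_right h6 (norm_nonneg _)
    have e2 : κ1 * ‖w - w'‖ / μ = κ1 / μ * ‖w - w'‖ := by ring
    rw [e2]
    linarith
  · intro w v hw hv
    have h1 := hball w (1 / 4) hw
    refine (vert H (by linarith) hv).trans ?_
    apply mul_le_mul_of_nonneg_left _ (norm_nonneg _)
    apply Real.exp_le_exp.mpr
    have h5 : μ ≤ 1 / (32 * (8 * b + 12)) := hμδ.trans d5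
    rw [le_div_iff₀ (by positivity)] at h5
    rw [le_div_iff₀ (by positivity)]
    have h6 : v ^ 2 = |v| * |v| := by rw [abs_mul_abs_self, sq]
    rw [h6]
    have h7 : (8 * b + 12) * (8 * μ) ≤ |v| := by linarith
    calc (8 * b + 12) * |v| * (8 * μ) = (8 * b + 12) * (8 * μ) * |v| := by ring
      _ ≤ |v| * |v| := mul_le_mul_of_nonneg_right h7 (abs_nonneg v)

theorem zf4 (h : S_ZFG) : S_ZF4 := by
  obtain ⟨δ, T0, hδ, hT0, hr⟩ := right_side h
  refine ⟨δ, T0, hδ, hT0, ?_⟩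
  intro T μ hT hμ hμT z hz1 hz2 hz3
  rcases le_total 0 z.re with h0 | h0
  · rw [abs_of_nonneg h0] at hz3
    exact hr T μ hT hμ hμT z hz1 hz2 hz3
  · rw [abs_of_nonpos h0] at hz3
    have h1 := hr T μ hT hμ hμT (-conj z) (by simpa using hz1) (by simpa using hz2)
      (by simpa using hz3)
    intro h2
    apply h1
    rw [LL_fe, h2, map_zero]

end Pool.Agent.H549.HE.ZF4
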